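import Pool.Agent.Helper27.OBX.Perm
import Pool.Agent.Helper27.OC.Main

/-!
# Q1 of MP_54f4f3_gt for 1-bridge braids
-/

set_option autoImplicit false

namespace Pool.Agent.Results.MP_54f4f3_gt.OneBridgeBraids

open Pool.Agent.Helper27.OBX Pool.Agent.Helper62

/-- The 1-bridge braid `B(w, b, t) = (σ_b ⋯ σ_1) (σ_{w-1} ⋯ σ_1)^t` on `w = m + 1` strands
(generators numbered from `0` here). -/
def oneBridge (m b t : ℕ) : List (ℕ × Bool) := run 0 b ++ pw (run 0 m) t

/-- The closure of the braid on `m + 1` strands is a knot: its permutation, a product of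
transpositions `(i, i + 1)`, has one cycle. -/
def IsKnot (m : ℕ) (L : List (ℕ × Bool)) : Prop :=
  ∀ i ≤ m, (L.map fun p => Equiv.swap p.1 (p.1 + 1)).prod.SameCycle 0 i

/-- **Main theorem.** Let `K` be the closure of the 1-bridge braid `B(w, b, t)` on `w = m + 1`
strands, a knot, with `b < t`, or `t ≤ 2`, or `w < 2 A`, where `A + 1` is the first multiple of
`t + 1` greater than `b + 1`; the last condition holds whenever `w ≤ 2 b + 1`. If the Alexander
polynomial of `K` is a product of cyclotomic polynomials then `K` is an iterated torus knot, and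
`b + 1` divides `w` and `t`, or `w - b` divides `w` and `t + 1`, or `t = 1`. -/
theorem result (m b t : ℕ) (hb : b ≤ m) (ht : 1 ≤ t)
    (hreg : b < t ∨ t ≤ 2 ∨ m + 1 < 2 * ((t + 1) * ((b + 1) / (t + 1) + 1) - 1))
    (hK : IsKnot m (oneBridge m b t))
    (hΔ : IsCyclotomicProduct (alexander m (oneBridge m b t))) :
    IsIterTorus m (oneBridge m b t) ∧
      (((b + 1) ∣ (m + 1) ∧ (b + 1) ∣ t) ∨
        ((m + 1 - b) ∣ (m + 1) ∧ (m + 1 - b) ∣ (t + 1)) ∨ t = 1) := by
  have e : ev m (oneBridge m b t) = OB.oneBridge m b t := by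
    rw [oneBridge, ev_append, ev_pw, ev_run, ev_run]
    rfl
  have hs : Small m (oneBridge m b t) :=
    small_append (small_run (by omega)) (small_pw (small_run (by omega)) _)
  have hK' := knot_old hs hK
  have hΔ' := alex_old hs hΔ
  rw [e] at hK' hΔ'
  have h := Pool.Agent.Helper27.OC.main m b t hb ht (by
    rcases hreg with h | h | h
    · exact Or.inr (Or.inl h)
    · exact Or.inl h
    · refine Or.inr (Or.inr ?_)
      have h1 : 1 * 1 ≤ (t + 1) * ((b + 1) / (t + 1) + 1) :=
        Nat.mul_le_mul (Nat.succ_le_succ (Nat.zero_le _)) (Nat.succ_le_succ (Nat.zero_le _))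
      generalize (t + 1) * ((b + 1) / (t + 1) + 1) = E at h h1 ⊢
      omega) hK' hΔ'
  exact ⟨iter_new h.1 _ e, h.2⟩

end Pool.Agent.Results.MP_54f4f3_gt.OneBridgeBraids
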