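import Pool.Agent.Helper27.OBX.Main
import Pool.Agent.Helper71.FT.Main

/-!
# Q1 of MP_54f4f3_gt for torus knots with full twists on all strands
-/

set_option autoImplicit false

namespace Pool.Agent.Results.MP_54f4f3_gt.TorusKnotsFullTwists

open Pool.Agent.Helper27.OBX

/-- The positive crossing of `b` parallel strands with `a` parallel strands: `a b` crossings, none
between two strands of the same block. -/
def cross (a b : ℕ) : List (ℕ × Bool) := (List.range b).flatMap fun k => run k a

/-- The `k`-th power of a braid, `k` an integer. -/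
def zp (w : List (ℕ × Bool)) (k : ℤ) : List (ℕ × Bool) :=
  if 0 ≤ k then pw w k.natAbs else pw (inv w) k.natAbs

/-- The crossing of `b` parallel strands with `a` parallel strands, followed by `M` full twists
`(σ_{m-1} ⋯ σ_0)^(m+1)` on all the `m + 1` strands (`M` an integer). -/
def ft (m a b : ℕ) (M : ℤ) : List (ℕ × Bool) := cross a b ++ zp (pw (run 0 m) (m + 1)) M

/-- **Main theorem.** Let `a, b ≥ 1` be coprime, `M ≠ 0` an integer and `K = T(a, b; a + b, M)` the
torus knot `T(a, b)` with `M` full twists on all its `a + b` strands: the closure of the positive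
crossing of `b` parallel strands with `a` parallel strands, followed by `M` full twists on the
`a + b = m + 1` strands. If the Alexander polynomial of `K` is a product of cyclotomic polynomials up
to a unit, then `a = 1` or `b = 1`, and `K` is the torus knot `T(a + b, M (a + b) + 1)`. -/
theorem result (m a b : ℕ) (M : ℤ) (ha : 1 ≤ a) (hb : 1 ≤ b) (hab : a + b = m + 1)
    (hc : Nat.Coprime a b) (hM : M ≠ 0) (hΔ : IsCyclotomicProduct (alexander m (ft m a b M))) :
    (a = 1 ∨ b = 1) ∧ SameClosure m (ft m a b M) m (zp (run 0 m) (M * (m + 1) + 1)) ∧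
      IsIterTorus m (ft m a b M) := by
  have e : ev m (ft m a b M) = Pool.Agent.Helper71.FT.ft m a b M := by
    rw [ft, ev_append, zp, ev_zp, ev_pw, ev_run, cross, ev_flatMap]
    simp only [ev_run]
    rfl
  have hs : Small m (ft m a b M) := small_append
    (small_flatMap fun k hk => small_run (by have := List.mem_range.1 hk; omega))
    (small_zp (small_pw (small_run (by omega)) _) _)
  have h1 := alex_old hs hΔ
  rw [e] at h1
  have h := Pool.Agent.Helper71.FT.main m a b M ha hb hab hc hM h1
  exact ⟨h.1, same_new h.2.1 _ _ e (by rw [zp, ev_zp, ev_run]), iter_new h.2.2 _ e⟩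

end Pool.Agent.Results.MP_54f4f3_gt.TorusKnotsFullTwists
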