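import Pool.Agent.Helper27.OBX.Main
import Pool.Agent.Helper71.TG.TT3

/-!
# Q1 of MP_54f4f3_gt for the twisted torus knots `T(p, k p ± 1; r, s)`
-/

set_option autoImplicit false

namespace Pool.Agent.Results.MP_54f4f3_gt.TwistedTorusKnots

open Pool.Agent.Helper27.OBX

/-- The braid on `m + 1` strands whose closure is the twisted torus knot `T(m + 1, q; r, s)`: the
torus braid `(σ_{m-1} ⋯ σ_0)^q` with `s` full twists `(σ_{r-2} ⋯ σ_0)^r` on the first `r` strands. -/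
def tt (m q r s : ℕ) : List (ℕ × Bool) := pw (run 0 (r - 1)) (r * s) ++ pw (run 0 m) q

/-- The closure of the braid is a torus knot `T(n + 1, t)`. -/
def IsTorusKnot (m : ℕ) (L : List (ℕ × Bool)) : Prop :=
  ∃ n t : ℕ, Nat.Coprime (n + 1) t ∧ SameClosure m L n (pw (run 0 n) t)

/-- **Main theorem.** Let `p ≥ 3`, `k, s ≥ 1`, `q = k p ± 1`, and let `r = p - 1`, or `s = 1` and
`r = 2` or `r = p - 2`, always `r ≥ 2`. If the Alexander polynomial of the twisted torus knot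
`K = T(p, q; r, s)` is a product of cyclotomic polynomials up to a unit, then `K` is a torus knot, or
`K` is an iterated torus knot and one of `T(4, 4 k + 1; 2, 1)`, `T(5, 4; 2, 1)`. -/
theorem result (p k r s q : ℕ) (hp : 3 ≤ p) (hk : 1 ≤ k) (hs : 1 ≤ s) (hr2 : 2 ≤ r)
    (hq : q = k * p + 1 ∨ q + 1 = k * p) (hr : r = p - 1 ∨ (s = 1 ∧ (r = 2 ∨ r = p - 2)))
    (hΔ : IsCyclotomicProduct (alexander (p - 1) (tt (p - 1) q r s))) :
    (IsTorusKnot (p - 1) (tt (p - 1) q r s) ∧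
      ((r = p - 1 ∧ s = 1 ∧ q = k * p + 1) ∨ (r = p - 1 ∧ q = p - 1) ∨
        (r = p - 2 ∧ s = 1 ∧ q = p - 1))) ∨
      (IsIterTorus (p - 1) (tt (p - 1) q r s) ∧
        r = 2 ∧ s = 1 ∧ ((p = 4 ∧ q = 4 * k + 1) ∨ (p = 5 ∧ q = 4))) := by
  have e : ev (p - 1) (tt (p - 1) q r s) = Pool.Agent.Helper27.TT.tt (p - 1) q r s := by
    rw [tt, ev_append, ev_pw, ev_pw, ev_run, ev_run]
    rfl
  have h1 := alex_old (small_append (small_pw (small_run (by omega)) _)
    (small_pw (small_run (by omega)) _)) hΔ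
  rw [← tt, e] at h1
  refine (Pool.Agent.Helper71.TG.main3 p k r s q hp hk hs hr2 hq hr h1).imp (And.imp_left ?_)
    (And.imp_left fun h => iter_new h _ e)
  rintro ⟨n, t, hc, h⟩
  exact ⟨n, t, hc, same_new h _ _ e (by rw [ev_pw, ev_run])⟩

end Pool.Agent.Results.MP_54f4f3_gt.TwistedTorusKnots
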