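import Pool.Agent.Helper27.OBX.Main
import Pool.Agent.Helper71.TG.Main

/-!
# Q1 of MP_54f4f3_gt for the twisted torus knots `T(p, k p ± r; r, s)`
-/

set_option autoImplicit false

namespace Pool.Agent.Results.MP_54f4f3_gt.TwistedTorusKnotsCongruent

open Pool.Agent.Helper27.OBX

/-- The braid on `m + 1` strands whose closure is the twisted torus knot `T(m + 1, q; r, s)`: the
torus braid `(σ_{m-1} ⋯ σ_0)^q` with `s` full twists `(σ_{r-2} ⋯ σ_0)^r` on the first `r` strands. -/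
def tt (m q r s : ℕ) : List (ℕ × Bool) := pw (run 0 (r - 1)) (r * s) ++ pw (run 0 m) q

/-- **Main theorem.** Let `2 ≤ r ≤ p - 2` be prime to `p`, let `k, s ≥ 1` and `q = k p ± r`, and let
`k = 1`, or `s = 1`, or `k ≤ w` or `s ≤ l`, where `l r = w p ± 1` and `2 l < p`. Then the Alexander
polynomial of the twisted torus knot `T(p, q; r, s)` is not a product of cyclotomic polynomials. For
`k = 1` these are all the knots `T(P, Q; P - Q, s)`, `P - 2 ≥ Q ≥ 2`. -/
theorem result (p k r s q : ℕ) (hr : 2 ≤ r) (hrp : r + 2 ≤ p) (hc : Nat.Coprime r p)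
    (hk : 1 ≤ k) (hs : 1 ≤ s) (hq : q = k * p + r ∨ q + r = k * p)
    (hks : k = 1 ∨ s = 1 ∨ ∃ l w : ℕ, 2 * l < p ∧
      (l * r = w * p + 1 ∨ l * r + 1 = w * p) ∧ (k ≤ w ∨ s ≤ l)) :
    ¬ IsCyclotomicProduct (alexander (p - 1) (tt (p - 1) q r s)) := by
  intro hΔ
  have e : ev (p - 1) (tt (p - 1) q r s) = Pool.Agent.Helper27.TT.tt (p - 1) q r s := by
    rw [tt, ev_append, ev_pw, ev_pw, ev_run, ev_run]
    rfl
  have h1 := alex_old (small_append (small_pw (small_run (by omega)) _)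
    (small_pw (small_run (by omega)) _)) hΔ
  rw [← tt, e] at h1
  obtain ⟨m, rfl⟩ : ∃ m, p = m + 1 := ⟨p - 1, by omega⟩
  exact Pool.Agent.Helper71.TG.main m r s k q hr (by omega) hc hk hs hq hks h1

end Pool.Agent.Results.MP_54f4f3_gt.TwistedTorusKnotsCongruent
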